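import Pool.Agent.H46.VIO.Stmts

/-!
# VIO, row GRL: greedy choice by ratio

`grl_thm` : `S_GRL`.
-/

set_option autoImplicit false

namespace Pool.VIO

open Finset

/-- GRL with `0 ≤ η`. -/
theorem grl_thm0 (s : Finset ℕ) (c μ : ℕ → ℝ) (η θ : ℝ) (hη : 0 ≤ η) (h0 : 0 ≤ θ) (h1 : θ ≤ 1)
    (h : ∀ q ∈ s, 0 < c q ∧ c q ≤ η ∧ 0 ≤ μ q) :
    ∃ F ⊆ s, θ * ∑ q ∈ s, c q - η ≤ ∑ q ∈ F, c q ∧ ∑ q ∈ F, c q ≤ θ * ∑ q ∈ s, c q ∧
      ∑ q ∈ F, μ q ≤ θ * ∑ q ∈ s, μ q := by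
  classical
  obtain ⟨P, hP⟩ : ∃ P : Finset ℕ → Prop, ∀ F, P F ↔ F ⊆ s ∧
      (∀ a ∈ F, ∀ b ∈ s \ F, μ a * c b ≤ μ b * c a) ∧ ∑ q ∈ F, c q ≤ θ * ∑ q ∈ s, c q :=
    ⟨_, fun _ => Iff.rfl⟩
  have hcs : 0 ≤ ∑ q ∈ s, c q := sum_nonneg fun q hq => (h q hq).1.le
  have hne : (s.powerset.filter P).Nonempty := by
    refine ⟨∅, ?_⟩
    rw [mem_filter, hP]
    refine ⟨empty_mem_powerset s, empty_subset s, ?_, ?_⟩
    · intro a ha
      simp at ha
    · rw [sum_empty]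
      positivity
  obtain ⟨F, hF, hmax⟩ := exists_max_image (s.powerset.filter P) card hne
  rw [mem_filter, hP] at hF
  obtain ⟨-, hFs, hlow, hcost⟩ := hF
  have hsF : ∑ q ∈ s \ F, c q + ∑ q ∈ F, c q = ∑ q ∈ s, c q := sum_sdiff hFs
  have hsF' : ∑ q ∈ s \ F, μ q + ∑ q ∈ F, μ q = ∑ q ∈ s, μ q := sum_sdiff hFs
  refine ⟨F, hFs, ?_, hcost, ?_⟩
  · by_cases hE : (s \ F).Nonempty
    · obtain ⟨b, hb, hbm⟩ := exists_min_image (s \ F) (fun q => μ q / c q) hE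
      rw [mem_sdiff] at hb
      by_contra hlt
      push Not at hlt
      have hmem : insert b F ∈ s.powerset.filter P := by
        rw [mem_filter, hP, mem_powerset]
        have hsub : insert b F ⊆ s := insert_subset hb.1 hFs
        refine ⟨hsub, hsub, ?_, ?_⟩
        · intro a ha d hd
          rw [mem_sdiff, mem_insert, not_or] at hd
          rw [mem_insert] at ha
          rcases ha with rfl | ha
          · have h2 := hbm d (mem_sdiff.mpr ⟨hd.1, hd.2.2⟩)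
            rw [div_le_div_iff₀ (h a hb.1).1 (h d hd.1).1] at h2
            exact h2
          · exact hlow a ha d (mem_sdiff.mpr ⟨hd.1, hd.2.2⟩)
        · rw [sum_insert hb.2]
          have := (h b hb.1).2.1
          linarith
      have h3 := hmax _ hmem
      rw [card_insert_of_notMem hb.2] at h3
      omega
    · rw [not_nonempty_iff_eq_empty] at hE
      rw [hE, sum_empty, zero_add] at hsF
      rw [hsF]
      nlinarith
  · by_cases hs : s.Nonempty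
    · have hc : 0 < ∑ q ∈ s, c q := sum_pos (fun q hq => (h q hq).1) hs
      have h4 : (∑ q ∈ F, μ q) * ∑ q ∈ s \ F, c q ≤ (∑ q ∈ s \ F, μ q) * ∑ q ∈ F, c q := by
        rw [sum_mul_sum, sum_mul_sum, sum_comm]
        refine sum_le_sum fun b hb => sum_le_sum fun a ha => hlow a ha b hb
      have hμ : 0 ≤ ∑ q ∈ s, μ q := sum_nonneg fun q hq => (h q hq).2.2
      have h5 : (∑ q ∈ F, μ q) * ∑ q ∈ s, c q ≤ (θ * ∑ q ∈ s, μ q) * ∑ q ∈ s, c q := by
        calc (∑ q ∈ F, μ q) * ∑ q ∈ s, c q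
            = (∑ q ∈ F, μ q) * ∑ q ∈ s \ F, c q + (∑ q ∈ F, μ q) * ∑ q ∈ F, c q := by
              rw [← hsF, mul_add]
          _ ≤ (∑ q ∈ s \ F, μ q) * ∑ q ∈ F, c q + (∑ q ∈ F, μ q) * ∑ q ∈ F, c q := by
              linarith
          _ = (∑ q ∈ s, μ q) * ∑ q ∈ F, c q := by rw [← hsF', add_mul]
          _ ≤ (∑ q ∈ s, μ q) * (θ * ∑ q ∈ s, c q) := mul_le_mul_of_nonneg_left hcost hμ
          _ = (θ * ∑ q ∈ s, μ q) * ∑ q ∈ s, c q := by ring
      exact le_of_mul_le_mul_right h5 hc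
    · rw [not_nonempty_iff_eq_empty] at hs
      subst hs
      have : F = ∅ := subset_empty.mp hFs
      subst this
      simp

/-- GRL. -/
theorem grl_thm : S_GRL :=
  fun s c μ η θ hη h0 h1 h => grl_thm0 s c μ η θ hη h0 h1 h

end Pool.VIO
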